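import Pool.Agent.H32.MonE

set_option autoImplicit false

open Pool.Agent.H32.Mon in
theorem Pool.Agent.Results.MP_eab232_al.CConjDec.result (A : Type) [Finite A] [Primcodable A]
    (R : Set (List A × List A)) (hf : R.Finite) (hm : Monadic R) (hc : Confluent R) :
    ComputablePred fun p : List A × List A => CConj (cls R p.1) (cls R p.2) :=
  mainC hf hm hc
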