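import Pool.Agent.H32.MonB

set_option autoImplicit false

open Pool.Agent.H32.Mon in
theorem Pool.Agent.Results.MP_eab232_al.PConjUndec.result :
    ∃ (A : Type) (_ : Finite A) (_ : Primcodable A) (R : Set (List A × List A)),
      R.Finite ∧ Monadic R ∧ Confluent R ∧
        ¬ ComputablePred fun p : List A × List A => PConj (cls R p.1) (cls R p.2) :=
  main
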